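import Pool.Agent.Y477.AV.TFc

set_option autoImplicit false

/-!
# The Atiyah conjecture for torsion-free groups and the norm `3 / √2`

Below `3 / √2` all kernel dimensions over torsion-free groups are integers, for all complex matrices
supported in an integer matrix of such a norm; just above `3 / √2` either all kernel dimensions
remain integers, for all matrices, or every nonnegative real number occurs.
-/

noncomputable section

namespace Pool.Agent.Results.MP_95030e_al.NormDichotomy

open TH57.Thr

/-- The kernel of right multiplication by the matrix `A` on `ℓ²(G)^m`. -/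
def kernel {G : Type} [Group G] {m n : ℕ} (A : Matrix (Fin m) (Fin n) (G →₀ ℂ)) :
    Set (lp (fun _ : Fin m × G => ℂ) 2) :=
  {x | ∀ (j : Fin n) (g : G),
    ∑ i : Fin m, (A i j).sum (fun h c => x (i, g * h⁻¹) * c) = 0}

open Classical in
/-- The von Neumann dimension of this kernel: the sum over `i` of one minus the squared distance
from the basis vector at `(i, 1)` to the kernel, that is, the trace of the projection onto the
kernel. -/
def kerDim {G : Type} [Group G] {m n : ℕ} (A : Matrix (Fin m) (Fin n) (G →₀ ℂ)) : ℝ :=
  ∑ i : Fin m, (1 - (Metric.infDist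
    (lp.single 2 (i, (1 : G)) (1 : ℂ) : lp (fun _ : Fin m × G => ℂ) 2) (kernel A)) ^ 2)

/-- An integer matrix as a complex matrix. -/
def complex {G : Type} [Group G] {m n : ℕ} (N : Matrix (Fin m) (Fin n) (MonoidAlgebra ℤ G)) :
    Matrix (Fin m) (Fin n) (G →₀ ℂ) :=
  fun i j => (N i j).coeff.mapRange (fun z : ℤ => (z : ℂ)) Int.cast_zero

/-- `G` is torsion-free. -/
def TorsionFree (G : Type) [Group G] : Prop := ∀ g : G, ∀ n : ℕ, 0 < n → g ^ n = 1 → g = 1

/-- `C` is a class of torsion-free groups which is closed under subgroups and isomorphisms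
(injective homomorphisms into a member), direct products of arbitrary families, semidirect products
with `ℤ`, and free products with free groups of finite rank. -/
structure ClosedClass (C : (G : Type) → [Group G] → Prop) : Prop where
  torsionFree : ∀ (G : Type) [Group G], C G → TorsionFree G
  subgroup : ∀ (G H : Type) [Group G] [Group H] (f : G →* H), Function.Injective f → C H → C G
  product : ∀ (I : Type) (G : I → Type) [∀ i, Group (G i)], (∀ i, C (G i)) → C (∀ i, G i)
  semidirect : ∀ (G : Type) [Group G] (s : MulAut G), C G →
    C (G ⋊[zpowersHom (MulAut G) s] Multiplicative ℤ)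
  freeProduct : ∀ (G : Type) [Group G] (m : ℕ), C G → C (Monoid.Coprod G (FreeGroup (Fin m)))

/-- `NormLE N c` (from `Pool.Agent.TH57.Thr.Defs`): right multiplication by `N` on `ℓ²` has norm at
most `|c|`.

1. Let `G` be torsion-free and let `N` be an integer matrix of norm at most `|c| < 3 / √2`. Then the
   kernel dimension of every complex matrix which is supported in the support of `N` is an integer.
2. The class of all torsion-free groups is a `ClosedClass`.
3. Let `C` be a `ClosedClass` and `c > 3 / √2`. Either all kernel dimensions of all complex matrices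
   over all groups of `C` are integers, or every real number `r ≥ 0` is the kernel dimension of an
   integer matrix of norm at most `c` over a finitely generated group of `C`. -/
theorem result :
    (∀ (G : Type) [Group G], TorsionFree G →
      ∀ (m n : ℕ) (N : Matrix (Fin m) (Fin n) (MonoidAlgebra ℤ G)) (c : ℝ),
      c ^ 2 < 9 / 2 → NormLE N c → ∀ A : Matrix (Fin m) (Fin n) (G →₀ ℂ),
        (∀ i j g, A i j g ≠ 0 → (N i j).coeff g ≠ 0) → ∃ z : ℤ, kerDim A = z) ∧
    ClosedClass (fun (G : Type) [Group G] => TorsionFree G) ∧
    ∀ C : (G : Type) → [Group G] → Prop, ClosedClass C → ∀ c : ℝ, 9 / 2 < c ^ 2 →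
      (∀ (G : Type) [Group G], C G → ∀ (m n : ℕ) (A : Matrix (Fin m) (Fin n) (G →₀ ℂ)),
        ∃ z : ℤ, kerDim A = z) ∨
      ∀ r : ℝ, 0 ≤ r → ∃ (G : Type) (_ : Group G), C G ∧ Group.FG G ∧
        ∃ (m n : ℕ) (N : Matrix (Fin m) (Fin n) (MonoidAlgebra ℤ G)), NormLE N c ∧
          kerDim (complex N) = r := by
  refine ⟨?_, ?_, ?_⟩
  · intro G _ hG m n N c hc hN A hA
    exact Pool.Agent.Y477.AV.below_tf hG N c hc hN A hA
  · have h := Pool.Agent.Y477.AV.closedClass_torsionFree
    exact ⟨h.torsionFree, h.subgroup, h.product, h.semidirect, h.freeProduct⟩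
  · intro C hC c hc
    exact Pool.Agent.Y477.AV.dichotomy
      ⟨hC.torsionFree, hC.subgroup, hC.product, hC.semidirect, hC.freeProduct⟩ c hc

end Pool.Agent.Results.MP_95030e_al.NormDichotomy
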