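import Pool.Agent.Y84.PA.Main
import Pool.Agent.Y84.KI.Sem

/-!
The Atiyah conjecture for von Neumann regular matrices over the complex group rings of torsion-free
groups in which the centralisers of the elements `≠ 1` are residually finite, and of torsion-free
groups locally embeddable into finite groups.

Proof.  Let `A X A = A`.  The kernel of right multiplication by `A` on `ℓ²(G)^m` is the image of the
idempotent `E = 1 - A X`, and its dimension is the Kaplansky trace `∑ i, E_ii(1)`.  The partial
augmentations of `E` at all conjugacy classes other than `1` vanish (see the results for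
`MP_7903c7_al` and `MP_2bf1be_al` in this repository), hence the trace is the trace of the
augmentation of `E`, which is an idempotent complex matrix of rank `m - rank ε(A)`.  If this is zero
then `E = 0` by Kaplansky's theorem.
-/

set_option autoImplicit false

namespace Pool.Agent.Results.MP_95030e_al.RegularMatrices

open scoped ENNReal

/-- The kernel of right multiplication by the matrix `A` on `ℓ²(G)^m`. -/
def kernel {G : Type} [Group G] {m n : ℕ} (A : Matrix (Fin m) (Fin n) (MonoidAlgebra ℂ G)) :
    Set (lp (fun _ : Fin m × G => ℂ) 2) :=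
  {x | ∀ (j : Fin n) (g : G),
    ∑ i : Fin m, (A i j).coeff.sum (fun h c => x (i, g * h⁻¹) * c) = 0}

open Classical in
/-- The von Neumann dimension of this kernel: the sum over `i` of one minus the squared distance
from the basis vector at `(i, 1)` to the kernel, that is, the trace of the projection onto the
kernel. -/
noncomputable def kerDim {G : Type} [Group G] {m n : ℕ}
    (A : Matrix (Fin m) (Fin n) (MonoidAlgebra ℂ G)) : ℝ :=
  ∑ i : Fin m, (1 - (Metric.infDist
    (lp.single 2 (i, (1 : G)) (1 : ℂ) : lp (fun _ : Fin m × G => ℂ) 2) (kernel A)) ^ 2)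

/-- The augmentation `ℂ[G] → ℂ`, the sum of the coefficients. -/
noncomputable def aug (G : Type) [Group G] : MonoidAlgebra ℂ G →ₐ[ℂ] ℂ :=
  MonoidAlgebra.lift ℂ ℂ G 1

/-- residually finite -/
def RF (G : Type) [Group G] : Prop :=
  ∀ g : G, g ≠ 1 → ∃ N : Subgroup G, N.Normal ∧ N.FiniteIndex ∧ g ∉ N

/-- locally embeddable into finite groups -/
def LEF (G : Type) [Group G] : Prop :=
  ∀ W : Finset G, ∃ (Q : Type) (_ : Group Q) (_ : Finite Q) (f : G → Q),
    Set.InjOn f W ∧ ∀ x ∈ W, ∀ y ∈ W, f (x * y) = f x * f y

/-- For every finite subset `W` of `G` and every `m ≠ 0` there are a map `f` from `G` to a group `H` with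
`f (x y) = f x f y` for `x, y ∈ W`, and a homomorphism `π` from the centraliser of `f(g)` in `H` to a
finite group with `π(f(g)) ^ m ≠ 1`. -/
def LocCen {G : Type} [Group G] (g : G) : Prop :=
  ∀ (W : Finset G) (m : ℕ), m ≠ 0 → ∃ (H : Type) (_ : Group H) (f : G → H) (Q : Type)
    (_ : Group Q) (_ : Finite Q) (π : Subgroup.centralizer ({f g} : Set H) →* Q),
    (∀ x ∈ W, ∀ y ∈ W, f (x * y) = f x * f y) ∧
      π ⟨f g, Subgroup.mem_centralizer_singleton_iff.2 rfl⟩ ^ m ≠ 1

/-- There are `m ≥ 2` and `J ≥ 1` such that `x` is conjugate to `x ^ (n ^ J)` for all `n` prime to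
`m`. -/
def AlmostDiv {G : Type} [Group G] (x : G) : Prop :=
  ∃ m J : ℕ, 2 ≤ m ∧ 1 ≤ J ∧ ∀ n : ℕ, n.Coprime m → IsConj x (x ^ n ^ J)

/-- The centraliser of `x` has a homomorphism to the additive group of `ℂ` which does not vanish at
`x`. -/
def HasChar {G : Type} [Group G] (x : G) : Prop :=
  ∃ (φ : Subgroup.centralizer {x} →* Multiplicative ℂ) (z : Subgroup.centralizer {x}),
    (z : G) = x ∧ φ z ≠ 1

/-- Let `G` be a torsion-free group such that (a) the centralisers of all elements `≠ 1` are
residually finite, or (b) `G` is locally embeddable into finite groups, for example all finitely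
generated subgroups of `G` are residually finite, or (c) each element `x ≠ 1` of each finitely
generated subgroup `H` satisfies, in `H`, `LocCen x` or `HasChar x` or is not almost divisible. Let
`A` be an `m × n` matrix over `ℂ[G]` which is von Neumann regular, `A X A = A`. Then the von
Neumann dimension of the kernel of right multiplication by `A` on `ℓ²(G)^m` is the integer
`m - rank ε(A)`, where `ε(A)` is the complex matrix of the augmentations of the entries; and
`A X = 1` if `ε(A)` has rank `m`. -/
theorem result (G : Type) [Group G] (htf : ∀ g : G, IsOfFinOrder g → g = 1)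
    (hG : (∀ g : G, g ≠ 1 → RF (Subgroup.centralizer ({g} : Set G))) ∨
      (LEF G ∨ ∀ H : Subgroup G, H.FG → RF H) ∨
      ∀ H : Subgroup G, H.FG → ∀ x : H, x ≠ 1 → LocCen x ∨ HasChar x ∨ ¬ AlmostDiv x)
    (m n : ℕ) (A : Matrix (Fin m) (Fin n) (MonoidAlgebra ℂ G))
    (X : Matrix (Fin n) (Fin m) (MonoidAlgebra ℂ G)) (hA : A * X * A = A) :
    kerDim A = (m : ℝ) - ((A.map (aug G)).rank : ℝ) ∧ ((A.map (aug G)).rank = m → A * X = 1) := by
  classical
  have key : ∀ E : Matrix (Fin m) (Fin m) (MonoidAlgebra ℂ G), E * E = E →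
      ∀ g : G, g ≠ 1 → Pool.Agent.H26R2.Bass.tau E g = 0 := by
    intro E hE g hg
    have h1 : (∀ x : G, x ≠ 1 → LocCen x) → Pool.Agent.H26R2.Bass.tau E g = 0 := fun h =>
      Pool.Agent.Y84.PC.tau_zero_of_locCen E hE (h g hg)
    rcases hG with hrf | hlef | hloc
    · apply h1
      intro x hx
      apply Pool.Agent.Y84.PC.locCen_of_centralizer
      intro k hk
      apply hrf x hx
      intro h3
      apply hx
      apply htf
      rw [isOfFinOrder_iff_pow_eq_one]
      exact ⟨k, Nat.pos_of_ne_zero hk, congrArg Subtype.val h3⟩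
    · apply h1
      intro x hx
      have h3 : Pool.Agent.Y84.PT.LEF G := by
        rcases hlef with h4 | h4
        · exact h4
        · exact Pool.Agent.Y84.PT.lef_of_local
            (fun H hH => Pool.Agent.Y84.PT.lef_of_rf (h4 H hH))
      exact Pool.Agent.Y84.PC.locCen_of_locInf
        (Pool.Agent.Y84.PG.locInf_of_lef h3 (fun h5 => hx (htf x h5)))
    · refine Pool.Agent.Y84.PA.tau_zero_tf htf (fun H hH x hx => ?_) E hE g hg
      rcases hloc H hH x hx with h2 | h2 | h2
      · exact Or.inl h2
      · exact Or.inr (Pool.Agent.Y84.KI.good_of (Or.inr h2))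
      · exact Or.inr (Pool.Agent.Y84.KI.good_of (Or.inl h2))
  exact Pool.Agent.Y84.PA.dim_int A X hA key

end Pool.Agent.Results.MP_95030e_al.RegularMatrices
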